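import Pool.Agent.Lib.MP_5c318e_ag.S.BVal
import Pool.Agent.Lib.MP_5c318e_ag.RamA
import Pool.Agent.Lib.MP_5c318e_ag.Idx

/-! A rational one form on a complete curve does not have exactly one simple pole. -/

set_option autoImplicit false

namespace Pool.Agent.Lib.MP_5c318e_ag

open Set
open scoped NNReal

variable {k K ι : Type} [Field k] [Field K] [Algebra k K] [Unique ι] [DecidableEq ι]

theorem jac_unique (d : ι → Derivation k K K) (f : ι → K) : Jac d f = d default (f default) := by
  rw [Jac, Matrix.det_unique]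
  rfl

omit [DecidableEq ι] in
/-- places of a function field of one variable -/
theorem curve_adp {G : Type} [LinearOrderedCommGroupWithZero G] (v : Valuation K G) {t : K}
    [FiniteDimensional (IntermediateField.adjoin k {t}) K]
    (hc : Algebra.trdeg k K = Fintype.card ι) (h0 : ∀ f ∈ kR k K, f ≠ 0 → v f = 1) {a : k}
    (ha : t - algebraMap k K a ≠ 0) (h1 : v (t - algebraMap k K a) ≠ 1) :
    ∃ u : K, Adp k v.valuationSubring (fun _ : ι => u) default := by
  obtain ⟨π, p0, p1, hp⟩ : ∃ π : K, π ≠ 0 ∧ v π < 1 ∧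
      ∀ f ∈ (IntermediateField.adjoin k {t}).toSubfield, f ≠ 0 → ∃ n : ℤ, v f = v π ^ n := by
    rcases h1.lt_or_gt with h | h
    · exact ⟨_, ha, h, fun f hf hf0 => grp_centre v h0 (mem_kR a) h ha hf hf0⟩
    · have ht : 1 < v t := by
        by_contra hn
        refine absurd h (not_lt.2 (v.map_sub_le (not_lt.1 hn) ?_))
        rcases eq_or_ne (algebraMap k K a) 0 with e | e
        · simp [e]
        · exact (h0 _ (mem_kR a) e).le
      refine ⟨t⁻¹, inv_ne_zero fun e => by simp [e] at ht,
        by rw [map_inv₀]; exact inv_lt_one_of_one_lt₀ ht, fun f hf hf0 => ?_⟩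
      obtain ⟨n, hn⟩ := grp_inf v h0 ht hf hf0
      exact ⟨-n, by rw [hn, map_inv₀, inv_zpow', neg_neg]⟩
  have : FiniteDimensional (IntermediateField.adjoin k {t}).toSubfield K := ‹_›
  obtain ⟨D, hD, H⟩ := idx_exists (⊤ : IntermediateField (IntermediateField.adjoin k {t}).toSubfield K)
  obtain ⟨e, -, u, -, u0, u1, -, hu⟩ := ram_exists v ⊤ (v.ne_zero_iff.2 p0) p1 hD (fun y _ hy => by
    obtain ⟨f, hf, he⟩ := H G v y trivial
    rw [he]
    refine hp f hf fun hf0 => hy ?_
    rw [hf0, map_zero] at he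
    exact v.zero_iff.1 (pow_eq_zero_iff hD.ne' |>.1 he)) ⟨π, trivial, rfl⟩
  have hE := v.isEquiv_valuation_valuationSubring
  refine ⟨u, adp_of_res u0 (hE.lt_one_iff_lt_one.1 u1) (fun f hf => ?_) ?_ hc.le⟩
  · obtain ⟨n, hn⟩ := hu f trivial hf
    refine ⟨n, ?_⟩
    rw [← map_zpow₀] at hn ⊢
    exact hE.eq_iff.1 hn
  · have : IsEmpty {j : ι // j ≠ default} := ⟨fun j => j.2 (Subsingleton.elim _ _)⟩
    exact RIndC_empty (fun c hc => hE.eq_one_iff_eq_one.1
      (h0 _ (mem_kR c) ((map_ne_zero _).2 hc))) _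

omit [DecidableEq ι] in
/-- the residue field of a place of a curve -/
theorem Adp.exists_res [IsAlgClosed k] {P : ValuationSubring K} {c : ι → K} {i0 : ι}
    (h : Adp k P c i0) {x : K} (hx : x ∈ P) : ∃ a : k, P.valuation (x - algebraMap k K a) < 1 := by
  by_contra hn
  have h1 : ∀ a : k, P.valuation (x - algebraMap k K a) = 1 := fun a =>
    le_antisymm ((P.valuation_le_one_iff _).2 (sub_mem hx (h.const a)))
      (not_lt.1 fun h' => hn ⟨a, h'⟩)
  have h2 : ∀ p : Polynomial k, p ≠ 0 → P.valuation (Polynomial.aeval x p) = 1 := fun p hp => by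
    rw [(IsAlgClosed.splits p).eq_prod_roots, map_mul, map_mul, Polynomial.aeval_C,
      h.const_val (Polynomial.leadingCoeff_ne_zero.2 hp), one_mul, map_multiset_prod,
      map_multiset_prod, Multiset.map_map, Multiset.map_map]
    refine Multiset.prod_eq_one fun y hy => ?_
    obtain ⟨a, -, rfl⟩ := Multiset.mem_map.1 hy
    simpa using h1 a
  have h3 : RIndC k P.valuation fun _ : Unit => x := fun p hp => by
    have e : MvPolynomial.aeval (fun _ : Unit => x) =
        (Polynomial.aeval x).comp (MvPolynomial.uniqueAlgEquiv k Unit).toAlgHom := by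
      ext
      simp
    rw [e]
    exact h2 _ ((map_ne_zero_iff _ (MvPolynomial.uniqueAlgEquiv k Unit).injective).2 hp)
  have h4 := (indep_option (h.ne_zero i0) h.lt h3).cardinalMk_le_trdeg
  rw [← h.basis.cardinalMk_eq_trdeg] at h4
  simp only [Cardinal.mk_fintype, Nat.cast_le, Fintype.card_option, Fintype.card_unique] at h4
  omega

variable [CharZero k]

/-- a regular form times a function with a zero or a pole -/
theorem Adp.val_reg {P : ValuationSubring K} {u : K} (h : Adp k P (fun _ : ι => u) default)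
    {d : ι → Derivation k K K} {φ s : K} (hφ : RegI d 1 φ P) (h0 : s ≠ 0) (h1 : P.valuation s ≠ 1)
    (hd : d default s ≠ 0) : P.valuation (φ / d default s * s) < 1 := by
  have h2 := (h.regI_iff 1 φ).1 hφ
  have h3 := h.ram d h0 h1
  rw [jac_unique, Function.update_self] at h3
  have hp : 0 < P.valuation (d default s) := (Valuation.pos_iff _).2 hd
  rw [map_mul, map_div₀, div_mul_eq_mul_div, div_lt_one₀ hp]
  calc P.valuation φ * P.valuation s ≤ P.valuation (Jac d fun _ => u) * P.valuation s :=
        mul_le_mul_left (by simpa using h2) _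
    _ = P.valuation (d default s) * P.valuation u := by rw [mul_comm, h3]
    _ < P.valuation (d default s) := mul_lt_of_lt_one_right hp h.lt

/-- a form with at most one simple pole has no pole -/
theorem one_pole [IsAlgClosed k] {z : ι → K} {d : ι → Derivation k K K} (hd : Dual k z d)
    (hfg : (⊤ : IntermediateField k K).FG) {h : K} {P0 : ValuationSubring K}
    (hP0 : IsDivisorial k K P0) (H : ∀ P, IsDivisorial k K P → P ≠ P0 → RegI d 1 h P)
    (H0 : ∀ u, P0.valuation u < 1 → RegI d 1 (u * h) P0) : RegI d 1 h P0 := by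
  classical
  have : CharZero K := charZero_of_injective_algebraMap (algebraMap k K).injective
  have htr := trdeg_of_basis hd.basis
  obtain ⟨c, i0, hc⟩ := hP0.exists_adp htr
  obtain rfl : default = i0 := Subsingleton.elim _ _
  obtain ⟨t, rfl⟩ : ∃ t, c = fun _ => t := ⟨c default, funext fun i => congrArg c (Subsingleton.elim _ _)⟩
  have hJ : d default t ≠ 0 := jac_unique d (fun _ => t) ▸ hd.isFr.jac_ne hc.basis.1
  have t0 : t ≠ 0 := hc.ne_zero default
  have t1 : P0.valuation t < 1 := hc.lt
  let L := IntermediateField.adjoin k {t}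
  have tL : ∀ a : k, t - algebraMap k K a ∈ L := fun a =>
    sub_mem (IntermediateField.mem_adjoin_simple_self k t) (L.algebraMap_mem a)
  have : Algebra.IsAlgebraic L K := by
    have := hc.basis.isAlgebraic_field
    rwa [range_const] at this
  have : Algebra.EssFiniteType k K := IntermediateField.fg_top_iff.1 hfg
  have : Algebra.EssFiniteType L K := Algebra.EssFiniteType.of_comp k L K
  have : FiniteDimensional L K := Algebra.finite_of_essFiniteType_of_isAlgebraic
  let Om := AlgebraicClosure K
  let g := h / d default t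
  have hx : g * t ∈ P0 := by
    have := (hc.regI_iff 1 _).1 (H0 t t1)
    rw [← div_pow_mem_iff (jac_unique d (fun _ => t) ▸ hJ), jac_unique, pow_one] at this
    rwa [div_mul_eq_mul_div, mul_comm]
  rw [hc.regI_iff, ← div_pow_mem_iff (jac_unique d (fun _ => t) ▸ hJ), jac_unique, pow_one]
  by_contra hn
  have hx1 : ¬ P0.valuation (g * t) < 1 := fun h' => hn (by
    have := hc.adapted.unif _ h'
    rwa [mul_div_cancel_right₀ _ t0] at this)
  have hb := hc.basis.algebraMap_comp (A := Om)
  have hal : ∀ y : Om, IsAlgebraic (Subfield.closure ((kR k Om : Set Om) ∪ {algebraMap K Om t})) y :=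
    fun y => by
      have := alg_of_basis hb y
      rwa [Function.comp_def, range_const] at this
  have htr' : Transcendental (kR k Om) (algebraMap K Om t) :=
    (indep_kR_iff.2 hb.1).transcendental default
  have hL : ∀ l : L, algebraMap L Om l ∈
      Subfield.closure ((kR k Om : Set Om) ∪ {algebraMap K Om t}) := fun l => by
    have : L ≤ (IntermediateField.adjoin k {algebraMap K Om t}).comap
        (IsScalarTower.toAlgHom k K Om) :=
      IntermediateField.adjoin_le_iff.2 (singleton_subset_iff.2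
        (IntermediateField.mem_adjoin_simple_self k _))
    exact this l.2
  have ne : ∀ a : k, t - algebraMap k K a ≠ 0 := fun a e =>
    hc.basis.1.transcendental default (sub_eq_zero.1 e ▸ isAlgebraic_algebraMap a)
  have sL : ∀ (σ : K →ₐ[L] Om) (a : k), σ (t - algebraMap k K a) =
      algebraMap K Om t - algebraMap k Om a := fun σ a => by
    rw [IsScalarTower.algebraMap_apply k K Om, ← map_sub]
    exact σ.commutes ⟨_, tL a⟩
  have key : ∀ (v : Valuation Om ℝ≥0), (∀ f ∈ kR k Om, f ≠ 0 → v f = 1) → ∀ a : k,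
      v (algebraMap K Om t - algebraMap k Om a) ≠ 1 → ∀ σ : K →ₐ[L] Om,
      (v.comap (σ : K →+* Om)).valuationSubring ≠ P0 → v (σ (g * (t - algebraMap k K a))) < 1 := by
    intro v h0 a h1 σ hne
    have hE := (v.comap (σ : K →+* Om)).isEquiv_valuation_valuationSubring
    have h2 : v.comap (σ : K →+* Om) (t - algebraMap k K a) ≠ 1 := by
      rw [← sL σ a] at h1; exact h1
    obtain ⟨u, hu⟩ := curve_adp (v.comap (σ : K →+* Om)) htr (by
      rintro _ ⟨b, rfl⟩ hb
      exact h0 _ ⟨b, ((σ.restrictScalars k).commutes b).symm⟩ ((map_ne_zero _).2 hb)) (ne a) h2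
    have e : d default (t - algebraMap k K a) = d default t := by simp
    have h3 := hu.val_reg (H _ hu.divisorial hne) (ne a) (fun h' => h2 (hE.eq_one_iff_eq_one.2 h'))
      (e ▸ hJ)
    rw [e] at h3
    exact hE.lt_one_iff_lt_one.2 h3
  have neP : ∀ (v : Valuation Om ℝ≥0) (σ : K →ₐ[L] Om) (s : K), v (σ s) < 1 →
      ¬ P0.valuation s < 1 → (v.comap (σ : K →+* Om)).valuationSubring ≠ P0 := by
    rintro v σ s h1 h2 rfl
    exact h2 ((v.comap (σ : K →+* Om)).isEquiv_valuation_valuationSubring.lt_one_iff_lt_one.1 h1)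
  have tr : ∀ a : k, ∑ σ : K →ₐ[L] Om, σ (g * (t - algebraMap k K a)) =
      algebraMap L Om (Algebra.trace L K g) * (algebraMap K Om t - algebraMap k Om a) := fun a => by
    rw [trace_eq_sum_embeddings Om, Finset.sum_mul]
    exact Finset.sum_congr rfl fun σ _ => by rw [map_mul, sL]
  set G := algebraMap L Om (Algebra.trace L K g) with hG
  have tr0 : ∑ σ : K →ₐ[L] Om, σ (g * t) = G * algebraMap K Om t := by simpa using tr 0
  have triv : ∀ v : Valuation Om ℝ≥0, (∀ a, IsAlgebraic (kR k Om) a → a ≠ 0 → v a = 1) →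
      ∀ f ∈ kR k Om, f ≠ 0 → v f = 1 := fun v h0 f hf => h0 f (isAlgebraic_algebraMap (⟨f, hf⟩ : kR k Om))
  have inf : ∀ v : Valuation Om ℝ≥0, (∀ f ∈ kR k Om, f ≠ 0 → v f = 1) → 1 < v (algebraMap K Om t) →
      v (G * algebraMap K Om t) < 1 := fun v h0 h1 => by
    rw [← tr0]
    refine v.map_sum_lt one_ne_zero fun σ _ => ?_
    have e : σ t = algebraMap K Om t := by simpa using sL σ 0
    simpa using key v h0 0 (by simpa using h1.ne') σ (neP v σ t⁻¹
      (by rw [map_inv₀, map_inv₀, e]; exact inv_lt_one_of_one_lt₀ h1)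
      (by rw [map_inv₀, not_lt]; exact (one_le_inv₀ hc.val_pos).2 t1.le))
  have hconst : G * algebraMap K Om t ∈ kR k Om := by
    refine POLY_const htr' hal (mul_mem (hL _) (Subfield.subset_closure (Or.inr rfl)))
      (fun v ρ h0 hρ h1 => ?_) fun v h0 h1 => (inf v (triv v h0) h1).le
    obtain ⟨a, rfl⟩ : ρ ∈ range (algebraMap k Om) := by
      have : IsAlgebraic k ρ := by
        by_contra h'
        have h2 : AlgebraicIndependent k fun _ : Unit => ρ :=
          algebraicIndependent_unique_type_iff.2 h'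
        exact (indep_kR_iff.2 h2).transcendental default hρ
      exact minpoly.mem_range_of_degree_eq_one k ρ
        (IsAlgClosed.degree_eq_one_of_irreducible k (minpoly.irreducible this.isIntegral))
    rcases eq_or_ne a 0 with rfl | ha
    · rw [← tr0]
      refine v.map_sum_le fun σ _ => ?_
      by_cases hs : (v.comap (σ : K →+* Om)).valuationSubring = P0
      · exact (hs ▸ hx : g * t ∈ (v.comap (σ : K →+* Om)).valuationSubring)
      · simpa using (key v (triv v h0) 0 h1.ne σ hs).le
    · have h2 : v (G * (algebraMap K Om t - algebraMap k Om a)) < 1 := by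
        rw [← tr]
        refine v.map_sum_lt one_ne_zero fun σ _ => key v (triv v h0) a h1.ne σ
          (neP v σ _ (by rwa [sL]) ?_)
        rw [Valuation.map_sub_eq_of_lt_right _ (by rwa [hc.const_val ha]), hc.const_val ha]
        exact lt_irrefl _
      have h3 : algebraMap K Om t - algebraMap k Om a ≠ 0 := by
        rw [IsScalarTower.algebraMap_apply k K Om, ← map_sub]
        exact (map_ne_zero _).2 (ne a)
      have h4 : v (algebraMap K Om t) ≤ 1 := by
        rw [← sub_add_cancel (algebraMap K Om t) (algebraMap k Om a)]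
        exact v.map_add_le h1.le (triv v h0 _ (mem_kR a) ((map_ne_zero _).2 ha)).le
      rw [map_mul]
      refine mul_le_one' ?_ h4
      rcases eq_or_ne G 0 with e | e
      · simp [e]
      obtain ⟨n, hn⟩ := grp_centre v (triv v h0) (mem_kR a) h1 h3 (hL _) e
      have hp := v.pos_iff.2 h3
      rw [map_mul, hn, ← zpow_add_one₀ hp.ne', zpow_lt_one_iff_right_of_lt_one₀ hp h1] at h2
      rw [hn]
      exact zpow_le_one₀ hp h1.le (by omega)
  have hzero : G * algebraMap K Om t = 0 := by
    obtain ⟨v, h0, -, h1, -⟩ := ext_deg htr' hal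
    by_contra h'
    exact (inf v h0 h1).ne (h0 _ hconst h')
  have := hP0.1
  obtain ⟨v, -, -, -, -, hv, -⟩ := ext_dvr (algebraMap K Om) P0 fun y =>
    (Algebra.IsAlgebraic.isAlgebraic (R := K) y).ringHom_of_comp_eq
      (algebraMap K Om).rangeRestrictField (RingHom.id Om)
      (algebraMap K Om).rangeRestrictField.injective rfl
  let σ0 : K →ₐ[L] Om := IsScalarTower.toAlgHom L K Om
  have hσ0 : (v.comap (σ0 : K →+* Om)).valuationSubring = P0 := SetLike.ext hv
  have hE := (v.comap (σ0 : K →+* Om)).isEquiv_valuation_valuationSubring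
  rw [hσ0] at hE
  have h0 : ∀ f ∈ kR k Om, f ≠ 0 → v f = 1 := by
    rintro _ ⟨b, rfl⟩ hb
    rw [IsScalarTower.algebraMap_apply k K Om]
    exact hE.eq_one_iff_eq_one.2 (hc.const_val fun e => hb (by rw [e, map_zero]))
  obtain ⟨a, ha⟩ := hc.exists_res hx
  have a0 : a ≠ 0 := by
    rintro rfl
    exact hx1 (by simpa using ha)
  let S := Finset.univ.filter fun σ : K →ₐ[L] Om => (v.comap (σ : K →+* Om)).valuationSubring = P0
  have h1 : v (∑ σ : K →ₐ[L] Om, (σ (g * t) - if σ ∈ S then algebraMap k Om a else 0)) < 1 := by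
    refine v.map_sum_lt one_ne_zero fun σ _ => ?_
    split_ifs with hs
    · have hE' := (v.comap (σ : K →+* Om)).isEquiv_valuation_valuationSubring
      rw [(Finset.mem_filter.1 hs).2] at hE'
      rw [← (σ.restrictScalars k).commutes a, AlgHom.restrictScalars_apply, ← map_sub]
      exact hE'.lt_one_iff_lt_one.2 ha
    · simpa using key v h0 0 (by simpa [σ0] using (hE.lt_one_iff_lt_one.2 t1).ne) σ (by simpa [S] using hs)
  rw [Finset.sum_sub_distrib, tr0, hzero, zero_sub, Valuation.map_neg, Finset.sum_ite_mem,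
    Finset.univ_inter, Finset.sum_const, ← map_nsmul] at h1
  exact h1.ne (h0 _ (mem_kR _) ((map_ne_zero _).2 (smul_ne_zero
    (Finset.card_ne_zero.2 ⟨σ0, Finset.mem_filter.2 ⟨Finset.mem_univ _, hσ0⟩⟩) a0)))

end Pool.Agent.Lib.MP_5c318e_ag
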